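import Pool.Agent.H3.HK.LowerJoined

set_option autoImplicit false

/-!
# MP_ad7f13_al: oriented digraphs with vertex-disjoint directed cycles

Let `Θ` be a digraph on `m` vertices without unoriented edges whose directed cycles are pairwise
vertex-disjoint (directed paths between different directed cycles are allowed), and let `c` be
the number of its directed cycles. Then the Hecke-Kiselman monoid of `Θ` embeds into the `m × m`
matrices over the complex numbers, and not into the `d × d` matrices with `d < m - c + min(c, 2)`.
If `c ≤ 2`, the least degree is `m`.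
-/

namespace Pool.Agent.Results.MP_ad7f13_al.DisjointCycles

open Relation Pool.Agent.H3.HK

/-- `T i j` means that there is an arrow `i → j`.  Hypotheses: `hT`: no loops and no unoriented
edges; `h1`: every vertex has at most one outgoing arrow which lies on a directed cycle;
`r 0, ..., r (c - 1)` are representatives of the directed cycles: every `r j` lies on a directed
cycle, no two of them are joined by directed paths in both directions, and every vertex on a
directed cycle is joined with one of them by directed paths in both directions. -/
theorem result (m c : ℕ) (T : Fin m → Fin m → Prop) (hT : ∀ i j, T i j → ¬ T j i)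
    (h1 : ∀ v x y, T v x → T v y → ReflTransGen T x v → ReflTransGen T y v → x = y)
    (r : Fin c → Fin m) (hr : ∀ j, TransGen T (r j) (r j))
    (hinj : ∀ i j, ReflTransGen T (r i) (r j) → ReflTransGen T (r j) (r i) → i = j)
    (hall : ∀ x, TransGen T x x → ∃ j, ReflTransGen T x (r j) ∧ ReflTransGen T (r j) x) :
    ((m + min c 2 : ℕ) : ℕ∞) ≤ deg ℂ T + c ∧ deg ℂ T ≤ m ∧ (c ≤ 2 → deg ℂ T = m) := by
  have hlo : ((m + min c 2 : ℕ) : ℕ∞) ≤ deg ℂ T + c := by
    refine le_deg fun d φ hφ => ?_
    have := lower_joined hT h1 ⟨hr, hinj, hall⟩ φ hφ
    rwa [Fintype.card_fin] at this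
  have hup : deg ℂ T ≤ m := by
    obtain ⟨X, hX⟩ := exists_indep (Fin m × Fin m)
    refine deg_le (rep hT (fun k j => X (k, j)) : HK T →ₙ* Matrix (Fin m) (Fin m) ℂ) ?_
    exact repX_injective hT h1 X hX
  refine ⟨hlo, hup, fun hc => le_antisymm hup ?_⟩
  have h4 : min c 2 = c := by omega
  rw [h4, Nat.cast_add] at hlo
  exact (ENat.add_le_add_iff_right (ENat.natCast_ne_top c)).1 hlo

end Pool.Agent.Results.MP_ad7f13_al.DisjointCycles
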