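import Pool.Agent.H83.HK.UL.Prod

set_option autoImplicit false

/-!
# MP_ad7f13_al: linearity of Hecke-Kiselman monoids of oriented and of unoriented graphs

Let `Θ` be a finite simple digraph in which no vertex lies both on an unoriented edge and on an
oriented edge; in other words, every connected component of `Θ` is purely oriented or purely
unoriented.  Then the Hecke-Kiselman monoid of `Θ` embeds into a monoid of integral matrices, so
`d_ℤ(Θ)` and `d_ℂ(Θ)` are finite.
-/

namespace Pool.Agent.Results.MP_ad7f13_al.Linearity

open Pool.Agent.H3.HK

/-- `T i j` means that there is an arrow `i → j`.  `hloop`: there are no loops.  `hpure`: if `i` and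
`j` are joined by an unoriented edge, then all the edges at `i` are unoriented. -/
theorem result {V : Type} [Finite V] (T : V → V → Prop) (hloop : ∀ i, ¬ T i i)
    (hpure : ∀ i j k, T i j → T j i → (T i k ↔ T k i)) :
    deg ℤ T < ⊤ ∧ deg ℂ T < ⊤ :=
  Pool.Agent.H83.HK.pure_deg hloop hpure

end Pool.Agent.Results.MP_ad7f13_al.Linearity
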