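import Pool.Agent.H3.HK.Final

set_option autoImplicit false

/-!
# MP_ad7f13_al: oriented digraphs with disjoint directed cycles not joined by paths

Let `Θ` be a digraph on `m` vertices without unoriented edges, with exactly `c` directed cycles,
which are pairwise vertex-disjoint, such that no directed path leads from one directed cycle to
another one. Then the least degree of a faithful representation of the Hecke-Kiselman monoid of
`Θ` by complex matrices is `m - c + min(c, 2)`. The least degree over the integers is at most
`m`, hence it is `m` if `c ≤ 2`.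
-/

namespace Pool.Agent.Results.MP_ad7f13_al.SeparateCycles

open Relation Pool.Agent.H3.HK

/-- `T i j` means that there is an arrow `i → j`.  Hypotheses: `hT`: no loops and no unoriented
edges; `h1`: every vertex has at most one outgoing arrow which lies on a directed cycle; `h2`: if
a directed path leads from `x` to `y`, both on directed cycles, then a directed path leads from
`y` to `x`; `r 0, ..., r (c - 1)` are representatives of the directed cycles: every `r j` lies on
a directed cycle, there is no directed path from one of them to a different one, and from every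
vertex on a directed cycle there is a directed path to one of them. -/
theorem result (m c : ℕ) (T : Fin m → Fin m → Prop) (hT : ∀ i j, T i j → ¬ T j i)
    (h1 : ∀ v x y, T v x → T v y → ReflTransGen T x v → ReflTransGen T y v → x = y)
    (h2 : ∀ x y, TransGen T x x → TransGen T y y → ReflTransGen T x y → ReflTransGen T y x)
    (r : Fin c → Fin m) (hr : ∀ j, TransGen T (r j) (r j))
    (hinj : ∀ i j, ReflTransGen T (r i) (r j) → i = j)
    (hall : ∀ x, TransGen T x x → ∃ j, ReflTransGen T x (r j)) :
    deg ℂ T + c = ((m + min c 2 : ℕ) : ℕ∞) ∧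
    ((m + min c 2 : ℕ) : ℕ∞) ≤ deg ℤ T + c ∧ deg ℤ T ≤ m ∧
    (c ≤ 2 → deg ℤ T = m) := by
  have htr : Transv T r := ⟨hr, hinj, hall⟩
  have hlo : ∀ {K : Type} [Field K] (d : ℕ) (φ : HK T →ₙ* Matrix (Fin d) (Fin d) K),
      Function.Injective φ → m + min c 2 ≤ d + c := by
    intro K _ d φ hφ
    have := lower_all hT h1 h2 htr φ hφ
    rwa [Fintype.card_fin] at this
  have hC : ((m + min c 2 : ℕ) : ℕ∞) ≤ deg ℂ T + c := le_deg fun d φ hφ => hlo d φ hφ
  have hZ : ((m + min c 2 : ℕ) : ℕ∞) ≤ deg ℤ T + c :=
    le_deg fun d φ hφ => hlo d (toC φ) (toC_injective hφ)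
  have hinjZ := repZ_injective hT h1 h2
  have hZm : deg ℤ T ≤ m := deg_le (rep hT (aZ T) : HK T →ₙ* Matrix (Fin m) (Fin m) ℤ) hinjZ
  have hcm : c ≤ m := by
    have := Fintype.card_le_of_injective r htr.injective
    rwa [Fintype.card_fin, Fintype.card_fin] at this
  have hup : deg ℂ T + c ≤ ((m + min c 2 : ℕ) : ℕ∞) := by
    rcases Nat.lt_or_ge c 2 with hc | hc
    · have h3 : deg ℂ T ≤ m :=
        deg_le (toC (rep hT (aZ T) : HK T →ₙ* Matrix (Fin m) (Fin m) ℤ)) (toC_injective hinjZ)
      have h4 : min c 2 = c := by omega
      rw [h4, Nat.cast_add]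
      gcongr
    · obtain ⟨φ, hφ⟩ := upper_two hT h1 h2 htr (n := m - c + 2) (by
        rw [Fintype.card_fin]
        omega)
      have h3 := deg_le φ hφ
      have h4 : m + min c 2 = (m - c + 2) + c := by omega
      rw [h4, Nat.cast_add (m - c + 2) c]
      gcongr
  refine ⟨le_antisymm hup hC, hZ, hZm, fun hc => le_antisymm hZm ?_⟩
  have h4 : min c 2 = c := by omega
  rw [h4, Nat.cast_add] at hZ
  exact (ENat.add_le_add_iff_right (ENat.natCast_ne_top c)).1 hZ

end Pool.Agent.Results.MP_ad7f13_al.SeparateCycles
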