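import Pool.Agent.H83.HK.Val

set_option autoImplicit false

/-!
# MP_ad7f13_al: unoriented graphs of finite type (0-Hecke monoids)

Let `Θ` be a graph on a finite set `V` all of whose edges are unoriented, and suppose that the
Coxeter group `W` of `Θ` is finite.  Then the least degree of a faithful representation of the
Hecke-Kiselman monoid of `Θ` by complex matrices, and by integral matrices, is the sum over the
vertices `i` of `|W : W_i| - 1`, where `W_i` is the parabolic subgroup generated by the simple
reflections different from the `i`-th one.
-/

namespace Pool.Agent.Results.MP_ad7f13_al.UnorientedFiniteType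

open Pool.Agent.H3.HK

/-- `M` is a Coxeter matrix on `V` whose off-diagonal entries are `2` (not joined) and `3` (joined
by an unoriented edge); its Coxeter group is finite. -/
theorem result {V : Type} [Fintype V] (M : CoxeterMatrix V)
    (hM : ∀ i j, i ≠ j → M i j = 2 ∨ M i j = 3) (hfin : Finite M.Group) :
    deg ℤ (fun i j => M i j = 3) =
      ((∑ i, ((Subgroup.closure (M.simple '' {j | j ≠ i})).index - 1) : ℕ) : ℕ∞) ∧
    deg ℂ (fun i j => M i j = 3) =
      ((∑ i, ((Subgroup.closure (M.simple '' {j | j ≠ i})).index - 1) : ℕ) : ℕ∞) :=
  Pool.Agent.H83.HK.value hM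

end Pool.Agent.Results.MP_ad7f13_al.UnorientedFiniteType
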